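import Pool.Agent.Q70.UpeBlocks

/-!
# A system with uniform positive entropy and no ergodic measure of full support

The system is a hereditary subshift of `{0, 1} ^ ℤ`: if `x` has two ones at distance
`n_k = (4 ^ k - 1) / 3`, then the density of ones in all windows of radius `R ≥ 4 ^ k` around the
first of them is at most `2 ^ (-k)`.  An ergodic measure of full support would charge all the
open sets of the configurations with two ones at distance `n_k`, so it would give density `0`
to the ones.  Blocks can be placed freely at the multiples of a large power of `4`, which gives
uniform positive entropy.
-/

open MeasureTheory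
open Q70.Upe

/-- **Answer: no.**  There is a homeomorphism `T` of a nonempty compact metrizable space `X` with
uniform positive entropy such that no ergodic `T`-invariant Borel probability measure has full
support. -/
theorem Pool.Agent.Results.MP_6603ca_an.NoFullSupport.result :
    ∃ (X : Type) (_ : TopologicalSpace X) (_ : CompactSpace X)
      (_ : TopologicalSpace.MetrizableSpace X) (_ : MeasurableSpace X) (_ : BorelSpace X)
      (T : X ≃ₜ X), Nonempty X ∧ UPE T ∧
        ∀ μ : Measure X, IsProbabilityMeasure μ → Ergodic T μ → ¬ μ.IsOpenPosMeasure :=
  ⟨Sub, inferInstance, inferInstance, inferInstance, inferInstance, inferInstance, shift,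
    ⟨⟨two 1, two_admissible 1⟩⟩, upe_shift, fun μ _ hμ => no_ergodic_full μ hμ⟩
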